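import Pool.Agent.Y745.UP.Defs
import Pool.Agent.Helper509.Polar

set_option autoImplicit false

/-!
SUBA: for `f` analytic the function `‖f‖ ^ β` is at most its mean over a disc (job 3671 of the UP project).
-/

namespace Pool.Agent.Y732.UP

open Pool.Agent.Y745.UP
open Filter Topology MeasureTheory Complex Metric Set

/-- Jensen: `log ‖f c‖` is at most the circle average -/
theorem log_le_avg (f : ℂ → ℂ) (c : ℂ) (r : ℝ) (hr : 0 < r) (hf : AnalyticOnNhd ℂ f (closedBall c r))
    (h0 : f c ≠ 0) : Real.log ‖f c‖ ≤ Real.circleAverage (fun z => Real.log ‖f z‖) c r := by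
  have habs : |r| = r := abs_of_pos hr
  have hf' : AnalyticOnNhd ℂ f (closedBall c |r|) := by rwa [habs]
  rw [AnalyticOnNhd.circleAverage_log_norm hr.ne' hf' h0]
  have : 0 ≤ ∑ᶠ u, MeromorphicOn.divisor f (closedBall c |r|) u * Real.log (r * ‖c - u‖⁻¹) := by
    refine finsum_nonneg fun u => ?_
    by_cases hu : u ∈ closedBall c |r|
    · refine mul_nonneg (mod_cast MeromorphicOn.AnalyticOnNhd.divisor_nonneg hf' u) ?_
      by_cases h3 : u = c
      · simp [h3]
      · have h4 : 0 < ‖c - u‖ := by simpa [sub_eq_zero] using fun h => h3 h.symm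
        apply Real.log_nonneg
        rw [← div_eq_mul_inv, one_le_div h4]
        rw [habs, mem_closedBall, dist_eq_norm] at hu
        rwa [norm_sub_rev]
    · simp [hu]
  linarith

/-- the circle mean of `‖f‖ ^ β` -/
theorem pow_le_avg (f : ℂ → ℂ) (c : ℂ) (r β : ℝ) (hr : 0 < r) (hβ : 0 < β)
    (hf : AnalyticOnNhd ℂ f (closedBall c r)) (h0 : f c ≠ 0) :
    ‖f c‖ ^ β ≤ Real.circleAverage (fun z => ‖f z‖ ^ β) c r := by
  have habs : |r| = r := abs_of_pos hr
  have hpi : (0 : ℝ) ≤ 2 * Real.pi := by positivity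
  have : IsFiniteMeasure (volume.restrict (uIoc 0 (2 * Real.pi))) := by
    rw [uIoc_of_le (by positivity)]; infer_instance
  have : NeZero (volume (uIoc 0 (2 * Real.pi))) := ⟨by simp⟩
  have hmem : ∀ θ, circleMap c r θ ∈ closedBall c r := fun θ => circleMap_mem_closedBall c hr.le θ
  have hcont : Continuous (fun θ : ℝ => f (circleMap c r θ)) :=
    hf.continuousOn.comp_continuous (continuous_circleMap c r) hmem
  have hcontβ : Continuous (fun θ : ℝ => ‖f (circleMap c r θ)‖ ^ β) :=
    hcont.norm.rpow_const fun _ => Or.inr hβ.le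
  -- zeros on the circle
  have hae : ∀ᵐ θ : ℝ ∂volume.restrict (uIoc 0 (2 * Real.pi)), f (circleMap c r θ) ≠ 0 := by
    have hcd : f ⁻¹' {0}ᶜ ∈ Filter.codiscreteWithin (closedBall c r) :=
      hf.preimage_zero_mem_codiscreteWithin h0 (mem_closedBall_self hr.le)
        ((convex_closedBall c r).isConnected ⟨c, mem_closedBall_self hr.le⟩)
    have hcs : f ⁻¹' {0}ᶜ ∈ Filter.codiscreteWithin (sphere c |r|) := by
      rw [habs]
      exact Filter.codiscreteWithin_mono sphere_subset_closedBall hcd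
    have h2 := circleMap_preimage_codiscrete hr.ne' hcs
    apply ae_restrict_le_codiscreteWithin measurableSet_uIoc
    exact codiscreteWithin_mono (by tauto) h2
  have hlogAe : ∀ᵐ θ : ℝ ∂volume.restrict (uIoc 0 (2 * Real.pi)),
      Real.exp (β * Real.log ‖f (circleMap c r θ)‖) = ‖f (circleMap c r θ)‖ ^ β := by
    filter_upwards [hae] with θ hθ
    rw [Real.rpow_def_of_pos (norm_pos_iff.mpr hθ), mul_comm]
  have hint : Integrable (fun θ : ℝ => Real.log ‖f (circleMap c r θ)‖) (volume.restrict (uIoc 0 (2 * Real.pi))) := by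
    have := (MeromorphicOn.circleIntegrable_log_norm (c := c) (R := r) (f := f)
      (fun z hz => (hf z (by rw [habs] at hz; exact sphere_subset_closedBall hz)).meromorphicAt))
    rw [uIoc_of_le hpi]
    exact this.1
  have h1 := log_le_avg f c r hr hf h0
  have h2 : ‖f c‖ ^ β = Real.exp (β * Real.log ‖f c‖) := by
    rw [Real.rpow_def_of_pos (norm_pos_iff.mpr h0), mul_comm]
  rw [h2, Real.circleAverage_eq_intervalAverage]
  rw [Real.circleAverage_eq_intervalAverage] at h1
  calc Real.exp (β * Real.log ‖f c‖)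
      ≤ Real.exp (β * ⨍ θ in (0 : ℝ)..(2 * Real.pi), Real.log ‖f (circleMap c r θ)‖) := by
        gcongr
    _ = Real.exp (⨍ θ in (0 : ℝ)..(2 * Real.pi), β * Real.log ‖f (circleMap c r θ)‖) := by
        congr 1
        rw [average_eq, average_eq, integral_const_mul]
        simp only [smul_eq_mul]
        ring
    _ ≤ ⨍ θ in (0 : ℝ)..(2 * Real.pi), Real.exp (β * Real.log ‖f (circleMap c r θ)‖) := by
        refine convexOn_exp.map_average_le Real.continuous_exp.continuousOn isClosed_univ (by simp) ?_ ?_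
        · exact hint.const_mul β
        · exact (integrable_congr hlogAe).mpr hcontβ.integrableOn_uIoc
    _ = ⨍ θ in (0 : ℝ)..(2 * Real.pi), ‖f (circleMap c r θ)‖ ^ β := average_congr hlogAe

/-- the circle mean as a lower Lebesgue integral -/
theorem pow_le_lint (f : ℂ → ℂ) (c : ℂ) (r β : ℝ) (hr : 0 < r) (hβ : 0 < β)
    (hf : AnalyticOnNhd ℂ f (closedBall c r)) (h0 : f c ≠ 0) :
    ENNReal.ofReal (2 * Real.pi * ‖f c‖ ^ β) ≤
      ∫⁻ θ in Ioo (-Real.pi) Real.pi, ENNReal.ofReal (‖f (circleMap c r θ)‖ ^ β) := by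
  have hmem : ∀ θ, circleMap c r θ ∈ closedBall c r := fun θ => circleMap_mem_closedBall c hr.le θ
  have hcont : Continuous (fun θ : ℝ => f (circleMap c r θ)) :=
    hf.continuousOn.comp_continuous (continuous_circleMap c r) hmem
  have hcontβ : Continuous (fun θ : ℝ => ‖f (circleMap c r θ)‖ ^ β) :=
    hcont.norm.rpow_const fun _ => Or.inr hβ.le
  have h1 := pow_le_avg f c r β hr hβ hf h0
  rw [Real.circleAverage_def, smul_eq_mul] at h1
  have hper : Function.Periodic (fun θ : ℝ => ‖f (circleMap c r θ)‖ ^ β) (2 * Real.pi) := by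
    intro θ
    show ‖f (circleMap c r (θ + 2 * Real.pi))‖ ^ β = ‖f (circleMap c r θ)‖ ^ β
    rw [periodic_circleMap c r θ]
  have h3 : ∫ θ in (0 : ℝ)..(2 * Real.pi), ‖f (circleMap c r θ)‖ ^ β =
      ∫ θ in (-Real.pi)..Real.pi, ‖f (circleMap c r θ)‖ ^ β := by
    have := hper.intervalIntegral_add_eq 0 (-Real.pi)
    rw [zero_add, show -Real.pi + 2 * Real.pi = Real.pi by ring] at this
    exact this
  rw [h3] at h1
  have h4 : 2 * Real.pi * ‖f c‖ ^ β ≤ ∫ θ in (-Real.pi)..Real.pi, ‖f (circleMap c r θ)‖ ^ β := by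
    have hp : 0 < 2 * Real.pi := by positivity
    calc 2 * Real.pi * ‖f c‖ ^ β ≤ 2 * Real.pi * ((2 * Real.pi)⁻¹ *
          ∫ θ in (-Real.pi)..Real.pi, ‖f (circleMap c r θ)‖ ^ β) := by gcongr
      _ = _ := by field_simp
  have h5 : -Real.pi ≤ Real.pi := by linarith [Real.pi_pos]
  rw [intervalIntegral.integral_of_le h5, integral_Ioc_eq_integral_Ioo] at h4
  rw [← ofReal_integral_eq_lintegral_ofReal]
  · exact ENNReal.ofReal_le_ofReal h4
  · exact (hcontβ.integrableOn_Icc (a := -Real.pi) (b := Real.pi)).mono_set Ioo_subset_Icc_self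
  · exact Eventually.of_forall fun θ => Real.rpow_nonneg (norm_nonneg _) _

/-- the disc mean as a lower Lebesgue integral -/
theorem pow_le_ball (f : ℂ → ℂ) (c : ℂ) (R β : ℝ) (hR : 0 < R) (hβ : 0 < β)
    (hf : AnalyticOnNhd ℂ f (closedBall c R)) (h0 : f c ≠ 0) :
    ENNReal.ofReal (Real.pi * R ^ 2 * ‖f c‖ ^ β) ≤ ∫⁻ z in ball c R, ENNReal.ofReal (‖f z‖ ^ β) := by
  rw [Pool.Agent.Helper509.Polar.lintegral_ball]
  have hcont : ContinuousOn (fun p : ℝ × ℝ => ‖f (circleMap c p.1 p.2)‖ ^ β) (Ioo 0 R ×ˢ Ioo (-Real.pi) Real.pi) := by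
    apply ContinuousOn.rpow_const _ fun _ _ => Or.inr hβ.le
    apply ContinuousOn.norm
    apply hf.continuousOn.comp (t := closedBall c R)
    · apply Continuous.continuousOn
      unfold circleMap
      fun_prop
    · rintro ⟨r, θ⟩ ⟨hr, _⟩
      exact closedBall_subset_closedBall hr.2.le (circleMap_mem_closedBall c hr.1.le θ)
  have hms : MeasurableSet (Ioo 0 R ×ˢ Ioo (-Real.pi) Real.pi : Set (ℝ × ℝ)) :=
    measurableSet_Ioo.prod measurableSet_Ioo
  have hmeas : AEMeasurable (fun p : ℝ × ℝ => ENNReal.ofReal p.1 * ENNReal.ofReal (‖f (circleMap c p.1 p.2)‖ ^ β))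
      (volume.restrict (Ioo 0 R ×ˢ Ioo (-Real.pi) Real.pi)) := by
    have m1 : AEMeasurable (fun p : ℝ × ℝ => ENNReal.ofReal p.1)
        (volume.restrict (Ioo 0 R ×ˢ Ioo (-Real.pi) Real.pi)) :=
      (ENNReal.measurable_ofReal.comp measurable_fst).aemeasurable
    have m2 : AEMeasurable (fun p : ℝ × ℝ => ENNReal.ofReal (‖f (circleMap c p.1 p.2)‖ ^ β))
        (volume.restrict (Ioo 0 R ×ˢ Ioo (-Real.pi) Real.pi)) :=
      ENNReal.measurable_ofReal.comp_aemeasurable (hcont.aemeasurable hms)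
    exact m1.mul m2
  have hvol : (volume : Measure (ℝ × ℝ)).restrict (Ioo 0 R ×ˢ Ioo (-Real.pi) Real.pi) =
      (volume.restrict (Ioo 0 R)).prod (volume.restrict (Ioo (-Real.pi) Real.pi)) := by
    rw [Measure.prod_restrict]; rfl
  rw [hvol] at hmeas ⊢
  rw [lintegral_prod _ hmeas]
  have hle : ∫⁻ r in Ioo 0 R, ENNReal.ofReal (r * (2 * Real.pi * ‖f c‖ ^ β)) ≤
      ∫⁻ r in Ioo 0 R, ∫⁻ θ in Ioo (-Real.pi) Real.pi,
        ENNReal.ofReal r * ENNReal.ofReal (‖f (circleMap c r θ)‖ ^ β) := by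
    refine setLIntegral_mono' measurableSet_Ioo fun r hr => ?_
    rw [lintegral_const_mul' _ _ ENNReal.ofReal_ne_top, ENNReal.ofReal_mul hr.1.le]
    gcongr
    exact pow_le_lint f c r β hr.1 hβ (hf.mono (closedBall_subset_closedBall hr.2.le)) h0
  refine le_trans (le_of_eq ?_) hle
  have hpos : 0 ≤ 2 * Real.pi * ‖f c‖ ^ β := by positivity
  rw [← ofReal_integral_eq_lintegral_ofReal]
  · congr 1
    rw [← integral_Ioc_eq_integral_Ioo, ← intervalIntegral.integral_of_le hR.le,
      intervalIntegral.integral_mul_const, integral_id]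
    ring
  · exact ((continuous_id.mul continuous_const).integrableOn_Icc (a := 0) (b := R)).mono_set Ioo_subset_Icc_self
  · filter_upwards [ae_restrict_mem measurableSet_Ioo] with r hr
    exact mul_nonneg hr.1.le hpos

/-- SUBA -/
theorem t_SUBA : P_SUBA := by
  intro f c R β hR hβ hf
  have hcoef : (0 : ℝ) ≤ 1 / (Real.pi * R ^ 2) := by positivity
  have hnn : 0 ≤ ∫ x in (-R)..R, ∫ y in (-R)..R, ‖f (c + x + y * I)‖ ^ β := by
    apply intervalIntegral.integral_nonneg (by linarith)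
    intro x _
    apply intervalIntegral.integral_nonneg (by linarith)
    intro y _
    positivity
  by_cases h0 : f c = 0
  · rw [h0, norm_zero, Real.zero_rpow hβ.ne']
    exact mul_nonneg hcoef hnn
  have hb := pow_le_ball f c R β hR hβ (hf.mono (closedBall_subset_closedBall (by linarith))) h0
  -- the square
  have hsq : ∀ x ∈ Icc (-R) R, ∀ y ∈ Icc (-R) R, c + x + y * I ∈ closedBall c (2 * R) := by
    intro x hx y hy
    rw [mem_closedBall, dist_eq_norm]
    calc ‖c + x + y * I - c‖ = ‖(x : ℂ) + y * I‖ := by congr 1; ring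
      _ ≤ ‖(x : ℂ)‖ + ‖(y : ℂ) * I‖ := norm_add_le _ _
      _ = |x| + |y| := by simp
      _ ≤ R + R := add_le_add (abs_le.mpr hx) (abs_le.mpr hy)
      _ = 2 * R := by ring
  have hcont : ContinuousOn (fun p : ℝ × ℝ => ‖f (c + p.1 + p.2 * I)‖ ^ β) (Icc (-R) R ×ˢ Icc (-R) R) := by
    apply ContinuousOn.rpow_const _ fun _ _ => Or.inr hβ.le
    apply ContinuousOn.norm
    apply hf.continuousOn.comp (t := closedBall c (2 * R))
    · fun_prop
    · rintro ⟨x, y⟩ ⟨hx, hy⟩
      exact hsq x hx y hy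
  have hint : IntegrableOn (fun p : ℝ × ℝ => ‖f (c + p.1 + p.2 * I)‖ ^ β) (Icc (-R) R ×ˢ Icc (-R) R) :=
    hcont.integrableOn_compact (isCompact_Icc.prod isCompact_Icc)
  have h1 : ∫ x in (-R)..R, ∫ y in (-R)..R, ‖f (c + x + y * I)‖ ^ β =
      ∫ p in (Icc (-R) R ×ˢ Icc (-R) R : Set (ℝ × ℝ)), ‖f (c + p.1 + p.2 * I)‖ ^ β := by
    have hvol : (volume : Measure (ℝ × ℝ)) = volume.prod volume := rfl
    rw [hvol] at hint ⊢
    rw [setIntegral_prod _ hint, intervalIntegral.integral_of_le (by linarith), ← integral_Icc_eq_integral_Ioc]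
    refine setIntegral_congr_fun measurableSet_Icc fun x _ => ?_
    simp only
    rw [intervalIntegral.integral_of_le (by linarith), ← integral_Icc_eq_integral_Ioc]
  have h2 : ∫⁻ z in ball c R, ENNReal.ofReal (‖f z‖ ^ β) ≤
      ENNReal.ofReal (∫ p in (Icc (-R) R ×ˢ Icc (-R) R : Set (ℝ × ℝ)), ‖f (c + p.1 + p.2 * I)‖ ^ β) := by
    rw [ofReal_integral_eq_lintegral_ofReal hint (Eventually.of_forall fun p => by positivity)]
    have hmp := Complex.volume_preserving_equiv_real_prod.symm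
    have e1 : ∫⁻ z in ball c R, ENNReal.ofReal (‖f z‖ ^ β) =
        ∫⁻ z, (ball (0 : ℂ) R).indicator (fun z => ENNReal.ofReal (‖f (c + z)‖ ^ β)) z := by
      rw [← lintegral_indicator measurableSet_ball, ← lintegral_add_left_eq_self _ c]
      congr 1
      ext z
      by_cases hz : z ∈ ball (0 : ℂ) R
      · rw [indicator_of_mem hz, indicator_of_mem]
        simpa [dist_eq_norm] using hz
      · rw [indicator_of_notMem hz, indicator_of_notMem]
        simpa [dist_eq_norm] using hz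
    rw [e1, ← hmp.lintegral_comp_emb measurableEquivRealProd.symm.measurableEmbedding,
      ← lintegral_indicator (measurableSet_Icc.prod measurableSet_Icc)]
    refine lintegral_mono fun p => ?_
    obtain ⟨x, y⟩ := p
    have e2 : (measurableEquivRealProd.symm (x, y) : ℂ) = x + y * I := by
      apply Complex.ext <;> simp
    rw [e2]
    by_cases hz : (x : ℂ) + y * I ∈ ball (0 : ℂ) R
    · have hz' : ‖(x : ℂ) + y * I‖ < R := by simpa using hz
      have hx : |x| ≤ R := by
        have := Complex.abs_re_le_norm ((x : ℂ) + y * I)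
        simp at this
        linarith
      have hy : |y| ≤ R := by
        have := Complex.abs_im_le_norm ((x : ℂ) + y * I)
        simp at this
        linarith
      rw [indicator_of_mem hz, indicator_of_mem (show ((x, y) : ℝ × ℝ) ∈ Icc (-R) R ×ˢ Icc (-R) R from
        ⟨abs_le.mp hx, abs_le.mp hy⟩), add_assoc]
    · rw [indicator_of_notMem hz]
      exact zero_le
  have h3 := hb.trans h2
  rw [← h1] at h3
  have h4 : Real.pi * R ^ 2 * ‖f c‖ ^ β ≤ ∫ x in (-R)..R, ∫ y in (-R)..R, ‖f (c + x + y * I)‖ ^ β :=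
    (ENNReal.ofReal_le_ofReal_iff hnn).mp h3
  have hp : 0 < Real.pi * R ^ 2 := by positivity
  rw [one_div, ← div_eq_inv_mul, le_div_iff₀ hp]
  linarith

end Pool.Agent.Y732.UP
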